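import Pool.Agent.Y380.MG.Hom

/-!
# Matching complexes of graphs: the deletion sequence is split exact
-/

set_option autoImplicit false

namespace Pool.Agent.Y380.MG

open Pool.Agent.H742R3.Mat

section
variable {α : Type} [DecidableEq α] [Fintype α]

/-- a list of edges is a matching after adding an edge with new end points -/
lemma EL_add {G : SimpleGraph α} {W : Finset α} {x y : α} {l : List (Finset α)} (hxy : G.Adj x y)
    (h : EL G W l) (hx : ∀ f ∈ l, x ∉ f) (hy : ∀ f ∈ l, y ∉ f) :
    EL G Finset.univ (({x, y} : Finset α) :: l) := by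
  rw [EL_cons]
  refine ⟨⟨⟨x, y, hxy, rfl⟩, Finset.subset_univ _⟩, ?_, fun e he => ⟨(h.1 e he).1,
    Finset.subset_univ _⟩, h.2⟩
  intro f hf
  rw [Finset.disjoint_left]
  intro z hz hzf
  simp only [Finset.mem_insert, Finset.mem_singleton] at hz
  rcases hz with rfl | rfl
  · exact hx f hf hzf
  · exact hy f hf hzf

/-- the homotopy maps chains of the link to chains of the deletion -/
lemma WG_mem {G : SimpleGraph α} {a b v : α} {S T' : Finset α} (hg : Good G a b v S T')
    {l : List (Finset α)} {k : ℕ} (h : EL G (Finset.univ \ {a, b}) l) (hk : l.length = k) :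
    WG a b v S T' (simplex l) ∈
      spn (fun l' => EL G Finset.univ l' ∧ ({a, b} : Finset α) ∉ l' ∧ l'.length = k + 1) := by
  have hl' := EL_sw1 hg h
  have hva : v ≠ a := hg.av.ne.symm
  have hab : a ≠ b := hg.ab.ne
  have havl : ∀ f ∈ l.map (sw v b), a ∉ f := fun f hf ha => by
    have := (hl'.1 f hf).2 ha
    simp at this
  have hvl : ∀ f ∈ l.map (sw v b), v ∉ f := fun f hf ha => by
    have := (hl'.1 f hf).2 ha
    simp at this
  have hnab : ({a, b} : Finset α) ∉ l.map (sw v b) := fun hm => havl _ hm (by simp)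
  rw [WG_apply, Gam_simplex]
  refine Submodule.sub_mem _ (Submodule.sub_mem _ (Submodule.sum_mem _ ?_)
    (Submodule.sum_mem _ ?_)) (Submodule.smul_mem _ _ ?_)
  · intro x hx
    rw [Finset.mem_sdiff, Finset.mem_singleton] at hx
    by_cases hc : ∃ e ∈ l.map (sw v b), x ∈ e
    · rw [Pr_simplex_mem hc, mul_zero]
      exact Submodule.zero_mem _
    · push Not at hc
      rw [Pr_simplex_not hc, ← simplex_cons]
      apply mem_spn
      refine ⟨EL_add (hg.hS x hx.1).symm hl' hc hvl, ?_, by simp [hk]⟩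
      rw [List.mem_cons, not_or]
      refine ⟨?_, hnab⟩
      intro hmem
      have : a ∈ ({x, v} : Finset α) := hmem ▸ (by simp)
      simp only [Finset.mem_insert, Finset.mem_singleton] at this
      rcases this with h1 | h1
      · exact hx.2 h1.symm
      · exact hva h1.symm
  · intro x hx
    rw [Finset.mem_sdiff, Finset.mem_insert, Finset.mem_singleton, not_or] at hx
    have hl'' := EL_sw2 hg hx.1 hx.2.2 hl'
    have ha'' : ∀ f ∈ (l.map (sw v b)).map (sw x v), a ∉ f := fun f hf ha => by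
      have := (hl''.1 f hf).2 ha
      simp at this
    have hx'' : ∀ f ∈ (l.map (sw v b)).map (sw x v), x ∉ f := fun f hf ha => by
      have := (hl''.1 f hf).2 ha
      simp at this
    rw [Gam_simplex, ← simplex_cons]
    apply mem_spn
    refine ⟨EL_add (hg.hT x hx.1).symm hl'' hx'' ha'', ?_, by simp [hk]⟩
    rw [List.mem_cons, not_or]
    refine ⟨?_, fun hm => ha'' _ hm (by simp)⟩
    intro hmem
    have : b ∈ ({x, a} : Finset α) := hmem ▸ (by simp)
    simp only [Finset.mem_insert, Finset.mem_singleton] at this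
    rcases this with h1 | h1
    · exact hx.2.1 h1.symm
    · exact hab h1.symm
  · rw [← simplex_cons]
    apply mem_spn
    refine ⟨EL_add hg.av hl' havl hvl, ?_, by simp [hk]⟩
    rw [List.mem_cons, not_or]
    refine ⟨?_, hnab⟩
    intro hmem
    have : b ∈ ({a, v} : Finset α) := hmem ▸ (by simp)
    simp only [Finset.mem_insert, Finset.mem_singleton] at this
    rcases this with h1 | h1
    · exact hab h1.symm
    · exact hg.bv h1

end

section final
variable {α : Type} [DecidableEq α]

lemma EL_iff (D : DecidableEq (Finset α)) {G : SimpleGraph α} {W : Finset α}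
    {l : List (Finset α)} :
    (l.Nodup ∧ (@List.toFinset _ D l) ∈ gm G W) ↔ EL G W l := by
  have hm : ∀ e, e ∈ @List.toFinset _ D l ↔ e ∈ l := fun e => @List.mem_toFinset _ D _ _
  constructor
  · rintro ⟨hn, h1, h2⟩
    refine ⟨fun e he => h1 e ((hm e).2 he), ?_⟩
    refine List.Nodup.pairwise_of_forall_ne hn ?_
    intro e he f hf hef
    exact h2 e ((hm e).2 he) f ((hm f).2 hf) hef
  · intro h
    refine ⟨h.nodup, fun e he => h.1 e ((hm e).1 he), ?_⟩
    intro e he f hf hef
    exact h.2.forall ((hm e).1 he) ((hm f).1 hf) hef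

variable [lo : LinearOrder (Finset α)]

lemma chE_gm (G : SimpleGraph α) (W : Finset α) (d : ℤ) :
    chE (gm G W) d = spn (fun l => EL G W l ∧ (l.length : ℤ) = d + 1) := by
  unfold chE spn
  congr 1
  ext m
  constructor
  · rintro ⟨l, ⟨h1, h2, h3⟩, rfl⟩
    exact ⟨l, ⟨(EL_iff _).1 ⟨h1, h2⟩, h3⟩, rfl⟩
  · rintro ⟨l, ⟨h1, h3⟩, rfl⟩
    have h2 := (EL_iff lo.toDecidableEq).2 h1
    exact ⟨l, ⟨h2.1, h2.2, h3⟩, rfl⟩

lemma chE_gm_deletion (G : SimpleGraph α) (W : Finset α) (e : Finset α) (d : ℤ) :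
    chE (deletion (gm G W) e) d =
      spn (fun l => EL G W l ∧ e ∉ l ∧ (l.length : ℤ) = d + 1) := by
  unfold chE spn
  congr 1
  ext m
  constructor
  · rintro ⟨l, ⟨h1, h2, h3⟩, rfl⟩
    exact ⟨l, ⟨(EL_iff _).1 ⟨h1, h2.1⟩,
      fun he => h2.2 ((@List.mem_toFinset _ lo.toDecidableEq _ _).2 he), h3⟩, rfl⟩
  · rintro ⟨l, ⟨h1, h4, h3⟩, rfl⟩
    have h2 := (EL_iff lo.toDecidableEq).2 h1
    exact ⟨l, ⟨h2.1, ⟨h2.2,
      fun he => h4 ((@List.mem_toFinset _ lo.toDecidableEq _ _).1 he)⟩, h3⟩, rfl⟩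

variable [Fintype α]

lemma link_gm {G : SimpleGraph α} {a b : α} (hab : G.Adj a b) :
    link (gm G (Finset.univ : Finset α)) ({a, b} : Finset α) =
      gm G (Finset.univ \ {a, b}) := by
  ext τ
  rw [mem_link]
  constructor
  · rintro ⟨h1, σ, hσ, h3⟩
    refine ⟨fun f hf => ⟨(hσ.1 f ((h3 f).2 (Or.inr hf))).1, ?_⟩, ?_⟩
    · intro x hx
      rw [Finset.mem_sdiff]
      refine ⟨Finset.mem_univ _, fun hx' => ?_⟩
      have hne : f ≠ ({a, b} : Finset α) := fun h => h1 (h ▸ hf)
      exact Finset.disjoint_left.1 (hσ.2 f ((h3 f).2 (Or.inr hf)) _ ((h3 _).2 (Or.inl rfl)) hne)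
        hx hx'
    · intro f hf g hg hfg
      exact hσ.2 f ((h3 f).2 (Or.inr hf)) g ((h3 g).2 (Or.inr hg)) hfg
  · intro hτ
    have h1 : ({a, b} : Finset α) ∉ τ := by
      intro h
      have := (hτ.1 _ h).2 (show a ∈ ({a, b} : Finset α) by simp)
      simp at this
    have hd : ∀ f ∈ τ, Disjoint ({a, b} : Finset α) f := by
      intro f hf
      rw [Finset.disjoint_left]
      intro x hx hx'
      exact (Finset.mem_sdiff.1 ((hτ.1 f hf).2 hx')).2 hx
    refine ⟨h1, @insert _ _ (@Finset.instInsert _ lo.toDecidableEq) ({a, b} : Finset α) τ, ?_,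
      fun f => @Finset.mem_insert _ lo.toDecidableEq _ _ _⟩
    have hm : ∀ f, f ∈ @insert _ _ (@Finset.instInsert _ lo.toDecidableEq) ({a, b} : Finset α) τ ↔
      f = {a, b} ∨ f ∈ τ := fun f => @Finset.mem_insert _ lo.toDecidableEq _ _ _
    refine ⟨?_, ?_⟩
    · intro f hf
      rcases (hm f).1 hf with rfl | hf
      · exact ⟨⟨a, b, hab, rfl⟩, Finset.subset_univ _⟩
      · exact ⟨(hτ.1 f hf).1, Finset.subset_univ _⟩
    · intro f hf g hg hfg
      rcases (hm f).1 hf with rfl | hf
      · rcases (hm g).1 hg with rfl | hg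
        · exact absurd rfl hfg
        · exact hd g hg
      · rcases (hm g).1 hg with rfl | hg
        · exact (hd f hf).symm
        · exact hτ.2 f hf g hg hfg

theorem mainG {G : SimpleGraph α} {a b v : α} {S T' : Finset α} (hg : Good G a b v S T') (d : ℤ) :
    Function.Injective (inclMap (deletion_subset (gm G (Finset.univ : Finset α)) {a, b}) d) ∧
    Function.Exact (inclMap (deletion_subset (gm G (Finset.univ : Finset α)) {a, b}) d)
      (linkMap (gm G (Finset.univ : Finset α)) {a, b} d) ∧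
    Function.Surjective (linkMap (gm G (Finset.univ : Finset α)) {a, b} d) ∧
    ∃ s : Homology (link (gm G (Finset.univ : Finset α)) {a, b}) (d - 1) →ₗ[ℤ]
        Homology (gm G (Finset.univ : Finset α)) d,
      linkMap (gm G (Finset.univ : Finset α)) {a, b} d ∘ₗ s = LinearMap.id := by
  have hab := hg.ab
  have hL : ∀ d : ℤ, ∀ τ : Ch (Finset α),
      τ ∈ chains (link (gm G (Finset.univ : Finset α)) {a, b}) d ↔
      toExt τ ∈ spn (fun l => EL G (Finset.univ \ {a, b}) l ∧ (l.length : ℤ) = d + 1) := by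
    intro d τ
    rw [mem_chains_iff, link_gm hab, chE_gm]
  have hM : ∀ d : ℤ, ∀ τ : Ch (Finset α), τ ∈ chains (gm G (Finset.univ : Finset α)) d ↔
      toExt τ ∈ spn (fun l => EL G Finset.univ l ∧ (l.length : ℤ) = d + 1) := by
    intro d τ
    rw [mem_chains_iff, chE_gm]
  have hD : ∀ d : ℤ, ∀ τ : Ch (Finset α),
      τ ∈ chains (deletion (gm G (Finset.univ : Finset α)) {a, b}) d ↔
      toExt τ ∈ spn (fun l => EL G Finset.univ l ∧ ({a, b} : Finset α) ∉ l ∧
        (l.length : ℤ) = d + 1) := by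
    intro d τ
    rw [mem_chains_iff, chE_gm_deletion]
  have hae : ∀ l : List (Finset α), EL G (Finset.univ \ {a, b}) l →
      ({a, b} : Finset α) ∉ l := by
    intro l hl h
    have := (hl.1 _ h).2 (show a ∈ ({a, b} : Finset α) by simp)
    simp at this
  have hML : ∀ l : List (Finset α), EL G (Finset.univ \ {a, b}) l → EL G Finset.univ l :=
    fun l hl => ⟨fun e he => ⟨(hl.1 e he).1, Finset.subset_univ _⟩, hl.2⟩
  have hLA : link (gm G (Finset.univ : Finset α)) ({a, b} : Finset α) ⊆
      deletion (gm G (Finset.univ : Finset α)) {a, b} := by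
    intro τ hτ
    refine ⟨?_, hτ.1⟩
    rw [link_gm hab] at hτ
    exact ⟨fun e he => ⟨(hτ.1 e he).1, Finset.subset_univ _⟩, hτ.2⟩
  refine split_exact
    ((toExt (V := Finset α)).symm.toLinearMap ∘ₗ LinearMap.mulLeft ℤ (gen ({a, b} : Finset α)) ∘ₗ
      (toExt (V := Finset α)).toLinearMap)
    ((toExt (V := Finset α)).symm.toLinearMap ∘ₗ WG a b v S T' ∘ₗ
      (toExt (V := Finset α)).toLinearMap)
    hLA ?_ ?_ ?_ ?_ ?_ ?_ d
  · intro d τ hτ
    rw [hL] at hτ
    rw [hM]
    simp only [LinearMap.comp_apply, LinearEquiv.coe_coe, LinearEquiv.apply_symm_apply]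
    refine spn_induction _ _ ?_ hτ
    rintro l ⟨hl, hk⟩
    rw [LinearMap.mulLeft_apply, ← simplex_cons]
    apply mem_spn
    refine ⟨EL_add hab hl ?_ ?_, by simp [hk]⟩
    · intro f hf hx
      have := (hl.1 f hf).2 hx
      simp at this
    · intro f hf hx
      have := (hl.1 f hf).2 hx
      simp at this
  · intro d τ hτ
    have h0 : contr ({a, b} : Finset α) τ = 0 := contr_deletion (chains_mono hLA _ hτ)
    apply (toExt (V := Finset α)).injective
    simp only [LinearMap.comp_apply, LinearEquiv.coe_coe, toExt_contr,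
      LinearEquiv.apply_symm_apply, LinearMap.mulLeft_apply]
    rw [co_gen_mul, if_pos rfl, ← toExt_contr, h0, map_zero, mul_zero, sub_zero]
  · intro τ
    apply (toExt (V := Finset α)).injective
    simp only [LinearMap.comp_apply, LinearEquiv.coe_coe, toExt_bdry, map_sub,
      LinearEquiv.apply_symm_apply, LinearMap.mulLeft_apply]
    rw [bd_gen_mul]
  · intro d z hz
    rw [hM] at hz
    rw [hD, map_sub]
    simp only [LinearMap.comp_apply, LinearEquiv.coe_coe, toExt_contr,
      LinearEquiv.apply_symm_apply]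
    have := spn_induction (LinearMap.id - LinearMap.mulLeft ℤ (gen ({a, b} : Finset α)) ∘ₗ
      co ({a, b} : Finset α)) (spn (fun l => EL G Finset.univ l ∧ ({a, b} : Finset α) ∉ l ∧
        (l.length : ℤ) = d + 1)) ?_ hz
    · exact this
    · rintro l ⟨hl, hk⟩
      simp only [LinearMap.sub_apply, LinearMap.id_apply, LinearMap.comp_apply,
        LinearMap.mulLeft_apply]
      by_cases he : ({a, b} : Finset α) ∈ l
      · rw [gen_co_simplex hl.nodup he, sub_self]
        exact Submodule.zero_mem _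
      · rw [co_simplex_not he, mul_zero, sub_zero]
        exact mem_spn ⟨hl, he, hk⟩
  · intro d τ hτ
    rw [hL] at hτ
    rw [hD]
    simp only [LinearMap.comp_apply, LinearEquiv.coe_coe, LinearEquiv.apply_symm_apply]
    refine spn_induction _ _ ?_ hτ
    rintro l ⟨hl, hk⟩
    have h1 := WG_mem hg hl rfl
    refine (Submodule.span_mono ?_) h1
    rintro _ ⟨l', ⟨h2, h3, h4⟩, rfl⟩
    refine ⟨l', ⟨h2, h3, ?_⟩, rfl⟩
    rw [h4]
    push_cast
    rw [hk]
  · intro d τ hτ
    rw [hL] at hτ
    apply (toExt (V := Finset α)).injective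
    simp only [LinearMap.comp_apply, LinearEquiv.coe_coe, toExt_bdry, map_add,
      LinearEquiv.apply_symm_apply]
    have := spn_eq (bd ∘ₗ WG a b v S T' + WG a b v S T' ∘ₗ bd) LinearMap.id ?_ hτ
    · exact this
    · rintro l ⟨hl, -⟩
      exact homotopyG hg hl

/-- the deletion sequence of the matching complex of a graph is split exact -/
theorem splitG {G : SimpleGraph α} {a b v : α} {S T' : Finset α} (hg : Good G a b v S T') (d : ℤ) :
    link (gm G Finset.univ) {a, b} = gm G (Finset.univ \ {a, b}) ∧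
      DeletionSequenceSplit (gm G Finset.univ) {a, b} d := by
  obtain ⟨h1, h2, h3, hs⟩ := mainG hg d
  exact ⟨link_gm hg.ab, splitExactSeq_of _ _ h1 h2 h3 hs⟩

end final

end Pool.Agent.Y380.MG
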