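import Pool.Agent.H742R3.Mat4

/-!
# Matching complexes of graphs: the null homotopy

`gm G W`: the matchings of the graph `G` inside the vertex set `W`.  For an edge `a b` and a second
neighbour `v` of `a`, and sets of vertices `S`, `T` as in `Good`, the map

`z ↦ ∑_{x ∈ S \ a} {x,v} ∧ P_x z' - ∑_{x ∈ T \ {b, v}} {x,a} ∧ (x v) z' - c {a,v} ∧ z'`,  `z' = (v b) z`,

is a chain homotopy from the inclusion of the link in the deletion to zero
(`c` is the difference of the numbers of elements of `S \ a` and `T \ v`).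
-/

set_option autoImplicit false

namespace Pool.Agent.Y380.MG

open Pool.Agent.H742R3.Mat

variable {α : Type} [DecidableEq α]

/-- `e` is an edge of `G` (a set of two adjacent vertices) -/
def IsE (G : SimpleGraph α) (e : Finset α) : Prop := ∃ p q, G.Adj p q ∧ e = {p, q}

/-- the simplicial complex of the matchings of `G` inside the set `W` of vertices -/
def gm (G : SimpleGraph α) (W : Finset α) : Set (Finset (Finset α)) :=
  {σ | (∀ e ∈ σ, IsE G e ∧ e ⊆ W) ∧ ∀ e ∈ σ, ∀ f ∈ σ, e ≠ f → Disjoint e f}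

/-- list of pairwise disjoint edges of `G` inside `W` -/
def EL (G : SimpleGraph α) (W : Finset α) (l : List (Finset α)) : Prop :=
  (∀ e ∈ l, IsE G e ∧ e ⊆ W) ∧ l.Pairwise Disjoint

lemma EL_cons {G : SimpleGraph α} {W : Finset α} {e : Finset α} {l : List (Finset α)} :
    EL G W (e :: l) ↔ (IsE G e ∧ e ⊆ W) ∧ (∀ f ∈ l, Disjoint e f) ∧ EL G W l := by
  unfold EL
  rw [List.pairwise_cons]
  simp only [List.mem_cons, forall_eq_or_imp]
  tauto

lemma EL.nodup {G : SimpleGraph α} {W : Finset α} {l : List (Finset α)} (h : EL G W l) :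
    l.Nodup := by
  induction l with
  | nil => simp
  | cons e l ih =>
    rw [EL_cons] at h
    rw [List.nodup_cons]
    refine ⟨fun he => ?_, ih h.2.2⟩
    have h1 := h.2.1 e he
    rw [disjoint_self] at h1
    obtain ⟨p, q, _, hpq⟩ := h.1.1
    rw [h1] at hpq
    have : p ∈ (⊥ : Finset α) := by rw [hpq]; simp
    simp at this

/-- the hypotheses on the graph: `a b` and `a v` are edges, every neighbour of `v` except `a`, `b`
is a neighbour of `b`, all elements of `S` are neighbours of `v`, all elements of `T` are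
neighbours of `a`, `b` lies in `T`, and for every edge `p q` which avoids `a` and `v`, `p` lies in
`S` if and only if `q` lies in `T` -/
structure Good (G : SimpleGraph α) (a b v : α) (S T : Finset α) : Prop where
  ab : G.Adj a b
  av : G.Adj a v
  bv : b ≠ v
  nb : ∀ x, G.Adj v x → x ≠ a → x ≠ b → G.Adj b x
  hS : ∀ x ∈ S, G.Adj v x
  hT : ∀ x ∈ T, G.Adj a x
  bT : b ∈ T
  st : ∀ p q, G.Adj p q → p ≠ a → p ≠ v → q ≠ a → q ≠ v → (p ∈ S ↔ q ∈ T)

lemma T_lemma' (v : α) : ∀ (l : List (Finset α)) (X Y : Finset α), v ∉ X → v ∉ Y →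
    (∀ e ∈ l, v ∉ e ∧ ∃ p q, p ≠ q ∧ e = {p, q} ∧ (p ∈ X ↔ q ∈ Y) ∧ (q ∈ X ↔ p ∈ Y)) →
    l.Pairwise Disjoint →
    ∑ x ∈ X, (T v x (simplex l) - simplex l) =
      ∑ x ∈ Y, (Gam (sw x v) (simplex l) - simplex l) := by
  intro l
  induction l with
  | nil =>
    intro X Y _ _ _ _
    simp [T]
  | cons e l ih =>
    intro X Y hvX hvY he hd
    rw [List.pairwise_cons] at hd
    simp only [List.mem_cons, forall_eq_or_imp] at he
    obtain ⟨⟨hve, p, q, hpq, rfl, h1, h2⟩, he⟩ := he
    have hvp : v ≠ p := fun h => hve (by rw [h]; simp)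
    have hvq : v ≠ q := fun h => hve (by rw [h]; simp)
    have hpl : ∀ f ∈ l, p ∉ f := fun f hf h =>
      Finset.disjoint_left.1 (hd.1 f hf) (by simp) h
    have hql : ∀ f ∈ l, q ∉ f := fun f hf h =>
      Finset.disjoint_left.1 (hd.1 f hf) (by simp) h
    have hvl : ∀ f ∈ l, v ∉ f := fun f hf => (he f hf).1
    have hsplit : ∀ (Z : Finset α) (g : α → Ext (Finset α)), ∑ x ∈ Z, g x =
        ∑ x ∈ Z \ {p, q}, g x + ((if p ∈ Z then g p else 0) + if q ∈ Z then g q else 0) := by
      intro Z g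
      rw [← Finset.sum_sdiff (Finset.inter_subset_left : Z ∩ {p, q} ⊆ Z)]
      congr 1
      · congr 1
        ext y
        simp only [Finset.mem_sdiff, Finset.mem_inter, not_and]
        constructor
        · rintro ⟨hy, hy2⟩; exact ⟨hy, hy2 hy⟩
        · rintro ⟨hy, hy2⟩; exact ⟨hy, fun _ => hy2⟩
      · have : Z ∩ {p, q} = ({p, q} : Finset α).filter (fun x => x ∈ Z) := by
          ext y; simp only [Finset.mem_inter, Finset.mem_filter]; tauto
        rw [this, Finset.sum_filter, Finset.sum_pair hpq]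
    rw [hsplit X, hsplit Y]
    have hrestX : ∑ x ∈ X \ {p, q}, (T v x (simplex ({p, q} :: l)) - simplex ({p, q} :: l)) =
        gen {p, q} * ∑ x ∈ X \ {p, q}, (T v x (simplex l) - simplex l) := by
      rw [Finset.mul_sum]
      refine Finset.sum_congr rfl (fun x hx => ?_)
      rw [Finset.mem_sdiff] at hx
      have hxe : x ∉ ({p, q} : Finset α) := hx.2
      have hT1 : T v x (simplex ({p, q} :: l)) = gen {p, q} * T v x (simplex l) := by
        rw [simplex_cons, T, map_mul, Pr_gen_not hxe, bd_gen_mul, map_sub, map_mul,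
          Pr_gen_not hxe, bd_gen_mul, T, mul_add]
        congr 1
        have e1 : Pr x (simplex l) - gen {p, q} * Pr x (bd (simplex l)) -
            (Pr x (simplex l) - gen {p, q} * bd (Pr x (simplex l))) =
            gen {p, q} * (bd (Pr x (simplex l)) - Pr x (bd (simplex l))) := by
          rw [mul_sub]; abel
        rw [e1, ← mul_assoc, ← mul_assoc, gen_swap ({x, v} : Finset α) ({p, q} : Finset α), neg_mul,
          mul_sub, mul_sub]
        abel
      rw [hT1, simplex_cons, mul_sub]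
    have hrestY : ∑ x ∈ Y \ {p, q}, (Gam (sw x v) (simplex ({p, q} :: l)) -
        simplex ({p, q} :: l)) =
        gen {p, q} * ∑ x ∈ Y \ {p, q}, (Gam (sw x v) (simplex l) - simplex l) := by
      rw [Finset.mul_sum]
      refine Finset.sum_congr rfl (fun x hx => ?_)
      rw [Finset.mem_sdiff] at hx
      have hxe : x ∉ ({p, q} : Finset α) := hx.2
      rw [simplex_cons, map_mul, Gam_gen, sw_of_not hxe hve, mul_sub]
    have hih := ih (X \ {p, q}) (Y \ {p, q}) (fun h => hvX (Finset.mem_sdiff.1 h).1)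
      (fun h => hvY (Finset.mem_sdiff.1 h).1) (by
        intro f hf
        obtain ⟨hvf, p', q', hpq', rfl, h1', h2'⟩ := he f hf
        have hdis := Finset.disjoint_left.1 (hd.1 _ hf)
        have hp' : p' ∉ ({p, q} : Finset α) := fun h => hdis h (by simp)
        have hq' : q' ∉ ({p, q} : Finset α) := fun h => hdis h (by simp)
        refine ⟨hvf, p', q', hpq', rfl, ?_, ?_⟩
        · rw [Finset.mem_sdiff, Finset.mem_sdiff]
          tauto
        · rw [Finset.mem_sdiff, Finset.mem_sdiff]
          tauto) hd.2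
    rw [hrestX, hrestY, hih]
    congr 1
    have eT1 : T v p (simplex ({p, q} :: l)) = gen {p, v} * simplex l := T_mem (by simp) hpl
    have eT2 : T v q (simplex ({p, q} :: l)) = gen {q, v} * simplex l := T_mem (by simp) hql
    have eG1 : Gam (sw p v) (simplex ({p, q} :: l)) = gen {q, v} * simplex l := by
      rw [simplex_cons, map_mul, Gam_gen, sw_pair hpq.symm hvq.symm,
        Gam_simplex_fix (fun f hf => ⟨hpl f hf, hvl f hf⟩), Finset.pair_comm q v]
    have eG2 : Gam (sw q v) (simplex ({p, q} :: l)) = gen {p, v} * simplex l := by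
      rw [simplex_cons, map_mul, Gam_gen, show ({p, q} : Finset α) = {q, p} from
        Finset.pair_comm p q, sw_pair hpq hvp.symm,
        Gam_simplex_fix (fun f hf => ⟨hql f hf, hvl f hf⟩), Finset.pair_comm p v]
    rw [eT1, eT2, eG1, eG2]
    by_cases hp : p ∈ X
    · by_cases hq : q ∈ X
      · rw [if_pos hp, if_pos hq, if_pos (h2.1 hq), if_pos (h1.1 hp)]
        abel
      · rw [if_pos hp, if_neg hq, if_neg (fun h => hq (h2.2 h)), if_pos (h1.1 hp)]
        abel
    · by_cases hq : q ∈ X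
      · rw [if_neg hp, if_pos hq, if_pos (h2.1 hq), if_neg (fun h => hp (h1.2 h))]
        abel
      · rw [if_neg hp, if_neg hq, if_neg (fun h => hq (h2.2 h)), if_neg (fun h => hp (h1.2 h))]

/-- the homotopy -/
noncomputable def WG (a b v : α) (S T' : Finset α) : Ext (Finset α) →ₗ[ℤ] Ext (Finset α) :=
  (∑ x ∈ S \ {a},
    LinearMap.mulLeft ℤ (gen {x, v}) ∘ₗ (Pr x).toLinearMap ∘ₗ (Gam (sw v b)).toLinearMap) -
  (∑ x ∈ T' \ {b, v},
    LinearMap.mulLeft ℤ (gen {x, a}) ∘ₗ (Gam (sw x v)).toLinearMap ∘ₗ (Gam (sw v b)).toLinearMap) -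
  ((((S \ {a}).card : ℤ) - ((T' \ {v}).card : ℤ)) •
    (LinearMap.mulLeft ℤ (gen {a, v}) ∘ₗ (Gam (sw v b)).toLinearMap))

lemma WG_apply (a b v : α) (S T' : Finset α) (z : Ext (Finset α)) : WG a b v S T' z =
    (∑ x ∈ S \ {a}, gen {x, v} * Pr x (Gam (sw v b) z)) -
    (∑ x ∈ T' \ {b, v}, gen {x, a} * Gam (sw x v) (Gam (sw v b) z)) -
    (((S \ {a}).card : ℤ) - ((T' \ {v}).card : ℤ)) • (gen {a, v} * Gam (sw v b) z) := by
  simp only [WG, LinearMap.sub_apply, LinearMap.sum_apply, LinearMap.smul_apply,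
    LinearMap.comp_apply, LinearMap.mulLeft_apply, AlgHom.toLinearMap_apply]

/-- membership in an edge after the transposition -/
lemma sw_edge {G : SimpleGraph α} {x v : α} {e : Finset α} (hv : x ∉ e) (he : IsE G e)
    (h : ∀ y, G.Adj v y → y ≠ x → v ∈ e → y ∈ e → G.Adj x y) : IsE G (sw v x e) := by
  obtain ⟨p, q, hpq, rfl⟩ := he
  simp only [Finset.mem_insert, Finset.mem_singleton, not_or] at hv
  by_cases h1 : v = p
  · subst h1
    refine ⟨x, q, h q hpq (Ne.symm hv.2) (by simp) (by simp), ?_⟩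
    exact sw_pair hpq.ne.symm (Ne.symm hv.2)
  · by_cases h2 : v = q
    · subst h2
      refine ⟨x, p, h p hpq.symm (Ne.symm hv.1) (by simp) (by simp), ?_⟩
      rw [show ({p, v} : Finset α) = {v, p} from Finset.pair_comm p v]
      exact sw_pair hpq.ne (Ne.symm hv.1)
    · refine ⟨p, q, hpq, ?_⟩
      apply sw_of_not
      · simp [h1, h2]
      · simp [hv.1, hv.2]

lemma EL_map_sw {G : SimpleGraph α} {W W' : Finset α} {x v : α} {l : List (Finset α)}
    (h : EL G W l) (h1 : ∀ e ∈ l, IsE G (sw v x e)) (h2 : ∀ e, e ⊆ W → sw v x e ⊆ W') :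
    EL G W' (l.map (sw v x)) := by
  refine ⟨?_, ?_⟩
  · intro e he
    rw [List.mem_map] at he
    obtain ⟨f, hf, rfl⟩ := he
    exact ⟨h1 f hf, h2 f (h.1 f hf).2⟩
  · rw [List.pairwise_map]
    refine h.2.imp ?_
    intro e f hef
    exact (Finset.disjoint_map _).2 hef

variable [Fintype α]

lemma EL_sw1 {G : SimpleGraph α} {a b v : α} {S T' : Finset α} (hg : Good G a b v S T')
    {l : List (Finset α)} (h : EL G (Finset.univ \ {a, b}) l) :
    EL G (Finset.univ \ {a, v}) (l.map (sw v b)) := by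
  have hva : v ≠ a := hg.av.ne.symm
  refine EL_map_sw h ?_ (fun e he => not_mem_sw_of_subset hg.ab.ne hva hg.bv.symm he)
  intro e he
  have he1 := h.1 e he
  have hbe : b ∉ e := fun hb => by
    have := he1.2 hb
    simp at this
  refine sw_edge hbe he1.1 ?_
  intro y hy hyb _ hye
  refine hg.nb y hy ?_ hyb
  rintro rfl
  have := he1.2 hye
  simp at this

lemma EL_sw2 {G : SimpleGraph α} {a b v : α} {S T' : Finset α} (hg : Good G a b v S T')
    {x : α} (hx : x ∈ T') (hxv : x ≠ v) {l : List (Finset α)}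
    (h : EL G (Finset.univ \ {a, v}) l) :
    EL G (Finset.univ \ {a, x}) (l.map (sw x v)) := by
  have hva : v ≠ a := hg.av.ne.symm
  have hxa : x ≠ a := (hg.hT x hx).ne.symm
  refine EL_map_sw h ?_ (fun e he => not_mem_sw_of_subset' hva hxa he)
  intro e he
  have he1 := h.1 e he
  have hve : v ∉ e := fun hb => by
    have := he1.2 hb
    simp at this
  refine sw_edge hve he1.1 ?_
  intro y hy hyv _ hye
  have hya : y ≠ a := by
    rintro rfl
    have := he1.2 hye
    simp at this
  exact hg.hS y ((hg.st y x hy.symm hya hyv hxa hxv).2 hx)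

/-- the homotopy identity on the chains of the link -/
lemma homotopyG {G : SimpleGraph α} {a b v : α} {S T' : Finset α} (hg : Good G a b v S T')
    {l : List (Finset α)} (h : EL G (Finset.univ \ {a, b}) l) :
    bd (WG a b v S T' (simplex l)) + WG a b v S T' (bd (simplex l)) = simplex l := by
  have hl' := EL_sw1 hg h
  have hvS : v ∉ S := fun hv => (hg.hS v hv).ne rfl
  have key := T_lemma' v (l.map (sw v b)) (S \ {a}) (T' \ {v})
    (fun hv => hvS (Finset.mem_sdiff.1 hv).1) (by simp) (by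
      intro e he
      obtain ⟨⟨p, q, hpq, rfl⟩, hs⟩ := hl'.1 e he
      have hp : p ≠ a ∧ p ≠ v := by simpa using hs (show p ∈ ({p, q} : Finset α) by simp)
      have hq : q ≠ a ∧ q ≠ v := by simpa using hs (show q ∈ ({p, q} : Finset α) by simp)
      refine ⟨by simp [hp.2.symm, hq.2.symm], p, q, hpq.ne, rfl, ?_, ?_⟩
      · rw [Finset.mem_sdiff, Finset.mem_sdiff, Finset.mem_singleton, Finset.mem_singleton,
          hg.st p q hpq hp.1 hp.2 hq.1 hq.2]
        exact and_congr Iff.rfl ⟨fun _ => hq.2, fun _ => hp.1⟩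
      · rw [Finset.mem_sdiff, Finset.mem_sdiff, Finset.mem_singleton, Finset.mem_singleton,
          hg.st q p hpq.symm hq.1 hq.2 hp.1 hp.2]
        exact and_congr Iff.rfl ⟨fun _ => hp.2, fun _ => hq.1⟩) hl'.2
  have hX : T' \ {v} = insert b (T' \ {b, v}) := by
    ext y
    simp only [Finset.mem_sdiff, Finset.mem_insert, Finset.mem_singleton, not_or]
    constructor
    · intro hy
      by_cases hyb : y = b
      · exact Or.inl hyb
      · exact Or.inr ⟨hy.1, hyb, hy.2⟩
    · rintro (rfl | hy)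
      · exact ⟨hg.bT, hg.bv⟩
      · exact ⟨hy.1, hy.2.2⟩
  have hb : b ∉ T' \ {b, v} := by simp
  have e1 : ∀ x, bd (gen {x, v} * Pr x (simplex (l.map (sw v b)))) +
      gen {x, v} * Pr x (bd (simplex (l.map (sw v b)))) = T v x (simplex (l.map (sw v b))) :=
    fun x => T_formula v x _
  have e2 : ∀ x, bd (gen {x, a} * Gam (sw x v) (simplex (l.map (sw v b)))) +
      gen {x, a} * Gam (sw x v) (bd (simplex (l.map (sw v b)))) =
      Gam (sw x v) (simplex (l.map (sw v b))) := by
    intro x
    rw [bd_gen_mul, bd_Gam]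
    abel
  have e3 : bd (gen {a, v} * simplex (l.map (sw v b))) +
      gen {a, v} * bd (simplex (l.map (sw v b))) = simplex (l.map (sw v b)) := by
    rw [bd_gen_mul]
    abel
  have e4 : Gam (sw b v) (simplex (l.map (sw v b))) = simplex l := by
    rw [Gam_simplex, List.map_map]
    congr 1
    conv_rhs => rw [← List.map_id l]
    apply List.map_congr_left
    intro e _
    simp [sw_sw]
  have key2 : ∑ x ∈ S \ {a}, T v x (simplex (l.map (sw v b))) -
      ∑ x ∈ T' \ {b, v}, Gam (sw x v) (simplex (l.map (sw v b))) -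
      (((S \ {a}).card : ℤ) - ((T' \ {v}).card : ℤ)) • simplex (l.map (sw v b)) = simplex l := by
    rw [Finset.sum_sub_distrib, Finset.sum_sub_distrib, Finset.sum_const, Finset.sum_const] at key
    have k1 : ∑ x ∈ T' \ {v}, Gam (sw x v) (simplex (l.map (sw v b))) = simplex l +
        ∑ x ∈ T' \ {b, v}, Gam (sw x v) (simplex (l.map (sw v b))) := by
      conv_lhs => rw [hX]
      rw [Finset.sum_insert hb, e4]
    rw [k1] at key
    rw [sub_smul, natCast_zsmul, natCast_zsmul]
    have k2 := sub_eq_iff_eq_add.1 key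
    rw [k2]
    abel
  rw [WG_apply, WG_apply, ← bd_Gam, Gam_simplex, map_sub, map_sub, map_sum, map_sum, map_smul]
  calc _ = (∑ x ∈ S \ {a}, (bd (gen {x, v} * Pr x (simplex (l.map (sw v b)))) +
      gen {x, v} * Pr x (bd (simplex (l.map (sw v b)))))) -
      (∑ x ∈ T' \ {b, v}, (bd (gen {x, a} * Gam (sw x v) (simplex (l.map (sw v b)))) +
      gen {x, a} * Gam (sw x v) (bd (simplex (l.map (sw v b)))))) -
      (((S \ {a}).card : ℤ) - ((T' \ {v}).card : ℤ)) •
        (bd (gen {a, v} * simplex (l.map (sw v b))) +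
      gen {a, v} * bd (simplex (l.map (sw v b)))) := by
        rw [Finset.sum_add_distrib, Finset.sum_add_distrib, smul_add]
        abel
    _ = simplex l := by
        rw [Finset.sum_congr rfl (fun x _ => e1 x), Finset.sum_congr rfl (fun x _ => e2 x), e3]
        exact key2

end Pool.Agent.Y380.MG
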